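import Pool.Agent.helper46.T6L.SpecO

/-! # Row t6l:OAR. Arithmetic of `ff`, `sl`, `WW` -/

set_option autoImplicit false

namespace Pool.Agent.T6L

open Finset NumberField Pool.Agent.helper3.FT Pool.Agent.helper47.RA Pool.Agent.T5
open Pool.Agent.helper26.T5 (nn LEMB LPR LAW LP LPA HLN HPR HSQ HID HCL HGA)
open Pool.Agent.helper28.LT (rad)

theorem OAR_rad_dvd (f : ℕ) : rad f ∣ f := by
  unfold rad
  exact Nat.prod_primeFactors_dvd f

/-- prime powers of `n` over any set of primes -/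
theorem OAR_prod_dvd (P : Finset ℕ) (n : ℕ) (hn : n ≠ 0) : ∏ p ∈ P, p ^ (n.factorization p) ∣ n := by
  have h1 : ∏ p ∈ P, p ^ (n.factorization p) =
      ∏ p ∈ P.filter (fun p => p ∈ n.primeFactors), p ^ (n.factorization p) := by
    rw [Finset.prod_filter]
    refine Finset.prod_congr rfl fun p _ => ?_
    by_cases h : p ∈ n.primeFactors
    · rw [if_pos h]
    · rw [if_neg h]
      have h2 : n.factorization p = 0 := by
        rw [← Nat.support_factorization] at h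
        exact Finsupp.notMem_support_iff.1 h
      rw [h2, pow_zero]
  rw [h1]
  have h3 : ∏ p ∈ n.primeFactors, p ^ (n.factorization p) = n := by
    have h4 := Nat.prod_factorization_pow_eq_self hn
    rw [Finsupp.prod, Nat.support_factorization] at h4
    exact h4
  calc _ ∣ ∏ p ∈ n.primeFactors, p ^ (n.factorization p) :=
        Finset.prod_dvd_prod_of_subset _ _ _ fun p hp => (Finset.mem_filter.1 hp).2
    _ = n := h3
    _ ∣ n := dvd_rfl

theorem OAR_self (n : ℕ) (hn : n ≠ 0) : ∏ p ∈ n.primeFactors, p ^ (n.factorization p) = n := by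
  have h4 := Nat.prod_factorization_pow_eq_self hn
  rw [Finsupp.prod, Nat.support_factorization] at h4
  exact h4

theorem OAR_one (f z : ℕ) (hf : 1 ≤ f) (hz : 1 ≤ z) : 1 ≤ ff f z ∧ ff f z ∣ z ∧ ff f z ∣ f ^ 4 ∧
    (∀ p : ℕ, p.Prime → p ∣ f → ¬ p ∣ ff f z → ¬ p ∣ z) ∧ sl f z = sl f (ff f z) := by
  refine ⟨?_, Nat.gcd_dvd_left _ _, ?_, ?_, ?_⟩
  · exact Nat.gcd_pos_of_pos_left _ hz
  · refine (Nat.gcd_dvd_right _ _).trans ?_
    have h1 : f ^ 4 = (f * f) ^ 2 := by ring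
    rw [h1]
    exact pow_dvd_pow_of_dvd (Nat.mul_dvd_mul_left f (OAR_rad_dvd f)) 2
  · intro p hp hpf hn hpz
    apply hn
    refine Nat.dvd_gcd hpz ?_
    exact (hpf.trans (Nat.dvd_mul_right f (rad f))).trans (dvd_pow_self _ two_ne_zero)
  · have h1 : (ff f z) ^ 2 = Nat.gcd (z ^ 2) (((f * rad f) ^ 2) ^ 2) := by
      unfold ff
      exact Nat.pow_gcd_pow.symm
    have h2 : Nat.gcd f (ff f z ^ 2) = Nat.gcd f (z ^ 2) := by
      rw [h1, ← Nat.gcd_assoc]
      refine Nat.gcd_eq_left ?_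
      refine (Nat.gcd_dvd_left _ _).trans ?_
      rw [← pow_mul]
      exact (Nat.dvd_mul_right f (rad f)).trans (dvd_pow_self _ (by norm_num))
    unfold sl
    rw [h2]

theorem OAR_two (f b : ℕ) (hf : 1 ≤ f) (hb : 1 ≤ b) : 1 ≤ sl f b ∧ sl f b ≤ f ∧ 1 ≤ rb f b ∧
    max 1 ((f : ℝ) / ((b : ℝ) * rb f b)) * ((f : ℝ) / sl f b) * √(WW f : ℝ) ≤ (f : ℝ) ^ 2 := by
  have hf0 : f ≠ 0 := by omega
  have hb0 : b ≠ 0 := by omega
  have hsl : 1 ≤ sl f b := by
    unfold sl
    refine Nat.lcm_pos ?_ ?_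
    · unfold rad
      exact Finset.prod_pos fun p hp => (Nat.prime_of_mem_primeFactors hp).pos
    · exact Nat.div_pos (Nat.le_of_dvd (by omega) (Nat.gcd_dvd_left _ _))
        (Nat.gcd_pos_of_pos_left _ (by omega))
  have hsld : sl f b ∣ f := by
    unfold sl
    exact Nat.lcm_dvd (OAR_rad_dvd f) (Nat.div_dvd_of_dvd (Nat.gcd_dvd_left _ _))
  have hrb : 1 ≤ rb f b := Finset.prod_pos fun p hp =>
    (Nat.prime_of_mem_primeFactors (Finset.mem_filter.1 hp).1).pos
  refine ⟨hsl, Nat.le_of_dvd (by omega) hsld, hrb, ?_⟩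
  obtain ⟨P, hP⟩ : ∃ P : Finset ℕ, P = f.primeFactors := ⟨_, rfl⟩
  obtain ⟨a, ha⟩ : ∃ a : ℕ → ℕ, ∀ p, a p = f.factorization p := ⟨_, fun _ => rfl⟩
  obtain ⟨e, he⟩ : ∃ e : ℕ → ℕ, ∀ p, e p = b.factorization p := ⟨_, fun _ => rfl⟩
  obtain ⟨i, hi⟩ : ∃ i : ℕ → ℕ, ∀ p, i p = if ¬ p ∣ b then 1 else 0 := ⟨_, fun _ => rfl⟩
  have hpp : ∀ p ∈ P, p.Prime := fun p hp => Nat.prime_of_mem_primeFactors (hP ▸ hp)
  have hpf : ∀ p ∈ P, p ∣ f := fun p hp => Nat.dvd_of_mem_primeFactors (hP ▸ hp)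
  have ha1 : ∀ p ∈ P, 1 ≤ a p := by
    intro p hp
    rw [ha]
    exact (hpp p hp).factorization_pos_of_dvd hf0 (hpf p hp)
  have hi0 : ∀ p ∈ P, (e p = 0 ∧ i p = 1) ∨ (1 ≤ e p ∧ i p = 0) := by
    intro p hp
    rw [hi, he]
    by_cases h : p ∣ b
    · right
      exact ⟨(hpp p hp).factorization_pos_of_dvd hb0 h, by simp [h]⟩
    · left
      exact ⟨Nat.factorization_eq_zero_of_not_dvd h, by simp [h]⟩
  have hfP : f = ∏ p ∈ P, p ^ a p := by
    rw [hP]
    refine (OAR_self f hf0).symm.trans ?_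
    exact Finset.prod_congr rfl fun p _ => by rw [ha]
  have hrbP : rb f b = ∏ p ∈ P, p ^ i p := by
    unfold rb
    rw [Finset.prod_filter, ← hP]
    refine Finset.prod_congr rfl fun p _ => ?_
    rw [hi]
    by_cases h : p ∣ b
    · simp [h]
    · simp [h]
  obtain ⟨u, hu⟩ : ∃ u : ℕ, u = ∏ p ∈ P, p ^ (a p - (e p + i p)) := ⟨_, rfl⟩
  obtain ⟨x, hx⟩ : ∃ x : ℕ, x = ∏ p ∈ P, p ^ (a p - max 1 (a p - min (a p) (2 * e p))) := ⟨_, rfl⟩
  obtain ⟨y, hy⟩ : ∃ y : ℕ, y = ∏ p ∈ P, p ^ (max 1 (a p - min (a p) (2 * e p))) := ⟨_, rfl⟩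
  have hu1 : 1 ≤ u := by
    rw [hu]
    exact Finset.prod_pos fun p hp => pow_pos (hpp p hp).pos _
  have hfu : f ≤ b * rb f b * u := by
    refine Nat.le_of_dvd (by positivity) ?_
    have h1 : f ∣ ∏ p ∈ P, (p ^ e p * p ^ i p * p ^ (a p - (e p + i p))) := by
      conv_lhs => rw [hfP]
      refine Finset.prod_dvd_prod_of_dvd _ _ fun p _ => ?_
      rw [← pow_add, ← pow_add]
      exact pow_dvd_pow p (by omega)
    rw [Finset.prod_mul_distrib, Finset.prod_mul_distrib, ← hrbP, ← hu] at h1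
    refine h1.trans ?_
    refine Nat.mul_dvd_mul_right (Nat.mul_dvd_mul_right ?_ _) _
    have h2 := OAR_prod_dvd P b hb0
    have h3 : ∏ p ∈ P, p ^ e p = ∏ p ∈ P, p ^ (b.factorization p) :=
      Finset.prod_congr rfl fun p _ => by rw [he]
    rw [h3]
    exact h2
  have hyx : f = y * x := by
    rw [hy, hx, ← Finset.prod_mul_distrib]
    conv_lhs => rw [hfP]
    refine Finset.prod_congr rfl fun p hp => ?_
    rw [← pow_add]
    have h1 := ha1 p hp
    refine congrArg (fun k => p ^ k) ?_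
    omega
  have hysl : y ∣ sl f b := by
    have h1 : ∀ p ∈ P, max 1 (a p - min (a p) (2 * e p)) ≤ (sl f b).factorization p := by
      intro p hp
      rw [← (hpp p hp).pow_dvd_iff_le_factorization (by omega)]
      rcases le_total (a p - min (a p) (2 * e p)) 1 with h | h
      · rw [max_eq_left h, pow_one]
        unfold sl
        refine Dvd.dvd.trans ?_ (Nat.dvd_lcm_left _ _)
        unfold rad
        rw [← hP]
        exact Finset.dvd_prod_of_mem _ hp
      · rw [max_eq_right h]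
        unfold sl
        refine Dvd.dvd.trans ?_ (Nat.dvd_lcm_right _ _)
        have hg : Nat.gcd f (b ^ 2) ≠ 0 := Nat.gcd_ne_zero_left hf0
        have hq : f / Nat.gcd f (b ^ 2) ≠ 0 := by
          have := Nat.div_pos (Nat.le_of_dvd (by omega) (Nat.gcd_dvd_left f (b ^ 2)))
            (Nat.pos_of_ne_zero hg)
          omega
        rw [(hpp p hp).pow_dvd_iff_le_factorization hq, Nat.factorization_div (Nat.gcd_dvd_left _ _),
          Nat.factorization_gcd hf0 (pow_ne_zero 2 hb0), Nat.factorization_pow]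
        simp only [Finsupp.coe_tsub, Pi.sub_apply, Finsupp.inf_apply, Finsupp.smul_apply, smul_eq_mul]
        rw [ha, he]
    have h2 := OAR_prod_dvd P (sl f b) (by omega)
    refine Dvd.dvd.trans ?_ h2
    rw [hy]
    exact Finset.prod_dvd_prod_of_dvd _ _ fun p hp => pow_dvd_pow p (h1 p hp)
  have hW : (u * x) ^ 2 * WW f ≤ f ^ 4 := by
    have h1 : (u * x) ^ 2 * WW f = ∏ p ∈ P, p ^ (2 * (a p - (e p + i p)) +
        2 * (a p - max 1 (a p - min (a p) (2 * e p))) + max 4 (a p + 1)) := by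
      unfold WW
      rw [hu, hx, ← Finset.prod_mul_distrib, ← Finset.prod_pow, ← hP, ← Finset.prod_mul_distrib]
      refine Finset.prod_congr rfl fun p _ => ?_
      rw [← ha]
      ring
    have h2 : f ^ 4 = ∏ p ∈ P, p ^ (4 * a p) := by
      conv_lhs => rw [hfP]
      rw [← Finset.prod_pow]
      refine Finset.prod_congr rfl fun p _ => ?_
      ring
    rw [h1, h2]
    refine Finset.prod_le_prod' fun p hp => ?_
    refine Nat.pow_le_pow_right (hpp p hp).pos ?_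
    have h3 := ha1 p hp
    rcases hi0 p hp with ⟨h4, h5⟩ | ⟨h4, h5⟩
    · rw [h4, h5]
      omega
    · rw [h5]
      omega
  -- real numbers
  have hfR : (0 : ℝ) < f := by exact_mod_cast hf
  have hbR : (0 : ℝ) < b := by exact_mod_cast hb
  have hrR : (0 : ℝ) < rb f b := by exact_mod_cast hrb
  have hsR : (0 : ℝ) < sl f b := by exact_mod_cast hsl
  have huR : (1 : ℝ) ≤ u := by exact_mod_cast hu1
  have h1 : max 1 ((f : ℝ) / ((b : ℝ) * rb f b)) ≤ u := by
    refine max_le huR ?_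
    rw [div_le_iff₀ (by positivity)]
    have h2 : (f : ℝ) ≤ (b : ℝ) * rb f b * u := by exact_mod_cast hfu
    linarith
  have h2 : (f : ℝ) / sl f b ≤ x := by
    rw [div_le_iff₀ hsR]
    have h3 : f ≤ x * sl f b := by
      conv_lhs => rw [hyx]
      rw [mul_comm]
      exact Nat.mul_le_mul_left x (Nat.le_of_dvd (by omega) hysl)
    exact_mod_cast h3
  have hx0 : (0 : ℝ) ≤ x := Nat.cast_nonneg x
  calc max 1 ((f : ℝ) / ((b : ℝ) * rb f b)) * ((f : ℝ) / sl f b) * √(WW f : ℝ)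
      ≤ u * x * √(WW f : ℝ) := by
        refine mul_le_mul_of_nonneg_right ?_ (Real.sqrt_nonneg _)
        exact mul_le_mul h1 h2 (by positivity) (by positivity)
    _ = √(((u : ℝ) * x) ^ 2 * WW f) := by
        rw [Real.sqrt_mul (by positivity), Real.sqrt_sq (by positivity)]
    _ ≤ √(((f : ℝ) ^ 2) ^ 2) := by
        refine Real.sqrt_le_sqrt ?_
        have h3 : (((u * x) ^ 2 * WW f : ℕ) : ℝ) ≤ ((f ^ 4 : ℕ) : ℝ) := by exact_mod_cast hW
        push_cast at h3
        calc ((u : ℝ) * x) ^ 2 * WW f ≤ (f : ℝ) ^ 4 := h3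
          _ = ((f : ℝ) ^ 2) ^ 2 := by ring
    _ = (f : ℝ) ^ 2 := Real.sqrt_sq (by positivity)

theorem OAR : OAR_stmt := ⟨OAR_one, OAR_two⟩

end Pool.Agent.T6L
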