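import Pool.Agent.helper46.T6L.SpecO
import Pool.Agent.helper42.T5.HGA

/-! # Row t6l:OGA. The ideals `a` in one class (port of `Pool/Agent/helper42/T5/HGA.lean`) -/

set_option autoImplicit false

namespace Pool.Agent.T6L

open Finset NumberField Pool.Agent.helper3.FT Pool.Agent.helper47.RA Pool.Agent.T5
open Pool.Agent.helper26.T5 (nn LEMB LPR LAW LP LPA HLN HPR HSQ HID HCL HGA)
open Pool.Agent.helper28.LT (rad)
open Pool.Agent.helper26.T5 (HGA_natAbs HGA_norm_pos HGA_eq HGA_z)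

theorem OGA (hLEMB : LEMB) (hLPR : LPR) (hHLN : HLN) (hHPR : HPR) : OGA_stmt := by
  intro K _ _ Q f b A Y hD hf1 hf5 hb hA hY S hS hpr
  classical
  have hD0 : Q.D ≠ 0 := hD.ne
  have hsD : 0 < √|(Q.D : ℝ)| := by
    apply Real.sqrt_pos.2
    rw [abs_pos]
    exact_mod_cast hD0
  set r : ℕ := rb f b with hr
  have hrpos : 0 < r := Finset.prod_pos fun p hp =>
    (Nat.prime_of_mem_primeFactors (Finset.mem_filter.1 hp).1).pos
  have hrR : (0 : ℝ) < r := by exact_mod_cast hrpos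
  have hbR : (0 : ℝ) < b := by exact_mod_cast hb
  set B : ℝ := 1 + 2 * Real.pi * Y / ((b : ℝ) * r * √|(Q.D : ℝ)|) with hB
  have hB0 : 0 ≤ B := by
    rw [hB]
    have := Real.pi_pos
    positivity
  rcases S.eq_empty_or_nonempty with hemp | ⟨a₀, ha₀S⟩
  · rw [hemp]
    simp only [Finset.card_empty, Nat.cast_zero]
    positivity
  obtain ⟨ha₀, pa₀, hco₀, hY₀, θ₀, hθ₀, hfθ₀⟩ := hS a₀ ha₀S
  have hg₀ := HGA_norm_pos a₀ ha₀
  set g₀ : ℕ := Ideal.absNorm a₀ with hg₀def
  have hg₀R : (0 : ℝ) < g₀ := by exact_mod_cast hg₀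
  set S' : Finset (Ideal (𝓞 K)) := S.erase a₀ with hS'
  have hz : ∀ a : Ideal (𝓞 K), ∃ z : 𝓞 K, a ∈ S' → (Ideal.span {z} = a * Q.bar a₀ ∧ 0 < Q.Y z ∧
      ∀ p : ℕ, p.Prime → p ∣ f → ¬ p ∣ b → (p : ℤ) ∣ Q.Y (z ^ 5)) := by
    intro a
    by_cases haS : a ∈ S'
    · obtain ⟨hne, haS1⟩ := Finset.mem_erase.1 haS
      obtain ⟨ha, pa, -, -, θ, hθ, hfθ⟩ := hS a haS1
      obtain ⟨z, hz⟩ := HGA_z hHPR Q f b A hD hb hA a a₀ ha ha₀ pa pa₀ hne θ θ₀ hθ hθ₀ hfθ hfθ₀
        (hpr a haS1 a₀ ha₀S)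
      exact ⟨z, fun _ => hz⟩
    · exact ⟨0, fun h => absurd h haS⟩
  choose z hz using hz
  have hlab : ∀ p : ℕ, ∃ lab : 𝓞 K → Fin 6, p.Prime → p ∣ f → ∀ z z' : 𝓞 K,
      (p : ℤ) ∣ Q.Y (z ^ 5) → (p : ℤ) ∣ Q.Y (z' ^ 5) →
      lab z = lab z' → (p : ℤ) ∣ Q.Y (Q.cj z * z') := by
    intro p
    by_cases hp : p.Prime ∧ p ∣ f
    · obtain ⟨lab, hlab⟩ := hHLN K Q p hp.1 (hf5 p hp.1 hp.2)
      exact ⟨lab, fun _ _ => hlab⟩
    · exact ⟨fun _ => 0, fun h1 h2 => absurd ⟨h1, h2⟩ hp⟩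
  choose lab hlab using hlab
  obtain ⟨E, hE1, hE2, hE3, hE4, hE5⟩ := hLEMB K Q hD
  -- the labels
  let L : Ideal (𝓞 K) → (f.primeFactors → Fin 6) := fun a p => lab p (z a)
  have hfib : ∀ l : f.primeFactors → Fin 6, (((S'.filter (fun a => L a = l)).card : ℕ) : ℝ) ≤ B := by
    intro l
    set T : Finset (Ideal (𝓞 K)) := S'.filter (fun a => L a = l) with hT
    have hTS' : ∀ a ∈ T, a ∈ S' := fun a ha => (Finset.mem_filter.1 ha).1
    have hTL : ∀ a ∈ T, L a = l := fun a ha => (Finset.mem_filter.1 ha).2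
    -- two different elements
    have key : ∀ a ∈ T, ∀ a' ∈ T, a ≠ a' → ∃ x : 𝓞 K, Q.cj (z a) * z a' = (g₀ : 𝓞 K) * x ∧
        (r : ℝ) ≤ |(Q.Y x : ℝ)| := by
      intro a haT a' haT' hne
      have haS' := hTS' a haT
      have haS'' := hTS' a' haT'
      obtain ⟨-, haS1⟩ := Finset.mem_erase.1 haS'
      obtain ⟨-, haS2⟩ := Finset.mem_erase.1 haS''
      obtain ⟨ha, pa, -, -, -⟩ := hS a haS1
      obtain ⟨ha', pa', -, -, -⟩ := hS a' haS2
      obtain ⟨z1, z2, z3⟩ := hz a haS'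
      obtain ⟨w1, w2, w3⟩ := hz a' haS''
      have h1 : Ideal.span {Q.cj (z a) * z a'} = Ideal.span {(g₀ : 𝓞 K)} * (Q.bar a * a') := by
        rw [← Ideal.span_singleton_mul_span_singleton, ← Q.bar_span, z1, w1, Q.bar_mul, Q.bar_bar,
          hg₀def, ← Q.mul_bar a₀]
        ring
      have hg₀K : (g₀ : 𝓞 K) ≠ 0 := by
        have : g₀ ≠ 0 := by omega
        exact_mod_cast this
      obtain ⟨x, hx1, hx2⟩ := exists_div_aux (Q.cj (z a) * z a') (g₀ : 𝓞 K) hg₀K _ h1
      refine ⟨x, hx1, ?_⟩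
      have hYx : Q.Y x ≠ 0 := by
        intro h
        exact hne (HGA_eq hHPR Q a a' ha ha' pa pa' x hx2 h).symm
      have hrd : r ∣ (Q.Y x).natAbs := by
        refine Finset.prod_primes_dvd _ ?_ ?_
        · intro p hp
          exact Nat.prime_iff.1 (Nat.prime_of_mem_primeFactors (Finset.mem_filter.1 hp).1)
        · intro p hp
          obtain ⟨hp1, hpb⟩ := Finset.mem_filter.1 hp
          have hpp := Nat.prime_of_mem_primeFactors hp1
          have hpf := Nat.dvd_of_mem_primeFactors hp1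
          have hll : lab p (z a) = lab p (z a') := by
            have h2 := congrFun (hTL a haT) ⟨p, hp1⟩
            have h3 := congrFun (hTL a' haT') ⟨p, hp1⟩
            exact h2.trans h3.symm
          have h2 := hlab p hpp hpf (z a) (z a') (z3 p hpp hpf hpb) (w3 p hpp hpf hpb) hll
          rw [hx1] at h2
          have h3 : (g₀ : 𝓞 K) = ((g₀ : ℤ) : 𝓞 K) := by push_cast; rfl
          rw [h3, Q.Y_int_mul] at h2
          have hpZ : Prime (p : ℤ) := Nat.prime_iff_prime_int.1 hpp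
          rcases hpZ.dvd_or_dvd h2 with h4 | h4
          · exact absurd (by exact_mod_cast h4) (hco₀ p hpp hpf hpb)
          · exact Int.natCast_dvd.1 h4
      have h2 : r ≤ (Q.Y x).natAbs := Nat.le_of_dvd (Int.natAbs_pos.2 hYx) hrd
      have h3 : ((Q.Y x).natAbs : ℝ) = |(Q.Y x : ℝ)| := by
        rw [Nat.cast_natAbs, Int.cast_abs]
      rw [← h3]
      exact_mod_cast h2
    set V : ℝ := g₀ * r * (√|(Q.D : ℝ)| / 2) with hV
    have hV0 : 0 < V := by rw [hV]; positivity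
    set R : ℝ := √(Y / b * g₀) with hR
    have hR2 : R ^ 2 = Y / b * g₀ := Real.sq_sqrt (by positivity)
    have hVle : ∀ a ∈ T, ∀ a' ∈ T, a ≠ a' →
        V ≤ |((starRingEnd ℂ) (E (z a)) * E (z a')).im| := by
      intro a haT a' haT' hne
      obtain ⟨x, hx1, hx2⟩ := key a haT a' haT' hne
      rw [← hE3, ← map_mul, hx1, hE2]
      have h3 : (g₀ : 𝓞 K) = ((g₀ : ℤ) : 𝓞 K) := by push_cast; rfl
      rw [h3, Q.Y_int_mul]
      push_cast
      rw [abs_mul, abs_mul, abs_of_pos hg₀R, abs_of_pos (half_pos hsD), hV]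
      exact mul_le_mul_of_nonneg_right (mul_le_mul_of_nonneg_left hx2 hg₀R.le) (half_pos hsD).le
    have hinj : Set.InjOn (fun a => E (z a)) (T : Set (Ideal (𝓞 K))) := by
      intro a haT a' haT' h
      by_contra hne
      have h1 := hVle a haT a' haT' hne
      have h2 : E (z a) = E (z a') := h
      rw [h2, mul_comm, Complex.mul_conj, Complex.ofReal_im, abs_zero] at h1
      linarith
    have hL := hLPR (T.image fun a => E (z a)) R V hV0 (by
      intro y hy
      obtain ⟨a, haT, rfl⟩ := Finset.mem_image.1 hy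
      have haS' := hTS' a haT
      obtain ⟨-, haS1⟩ := Finset.mem_erase.1 haS'
      obtain ⟨ha, pa, -, hYa, -⟩ := hS a haS1
      obtain ⟨z1, z2, z3⟩ := hz a haS'
      constructor
      · rw [hE1, hR]
        apply Real.le_sqrt_of_sq_le
        rw [← hE4, nn, z1, map_mul, Q.absNorm_bar]
        push_cast
        refine mul_le_mul_of_nonneg_right ?_ hg₀R.le
        rw [le_div_iff₀ hbR]
        linarith
      · rw [hE2]
        have : (0 : ℝ) < Q.Y (z a) := by exact_mod_cast z2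
        positivity) (by
      intro y hy y' hy' hyy
      obtain ⟨a, haT, rfl⟩ := Finset.mem_image.1 hy
      obtain ⟨a', haT', rfl⟩ := Finset.mem_image.1 hy'
      exact hVle a haT a' haT' (fun h => hyy (by rw [h])))
    rw [Finset.card_image_of_injOn hinj] at hL
    refine hL.trans ?_
    rw [hB, hR2, add_comm]
    refine add_le_add le_rfl ?_
    have h1 : Real.pi * (Y / b * g₀) / V = 2 * Real.pi * Y / ((b : ℝ) * r * √|(Q.D : ℝ)|) := by
      rw [hV]
      field_simp
    rw [h1]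
  -- sum over the labels
  have hcard : (S'.card : ℝ) ≤ 6 ^ f.primeFactors.card * B := by
    have h1 : S'.card = ∑ l ∈ (Finset.univ : Finset (f.primeFactors → Fin 6)),
        (S'.filter (fun a => L a = l)).card :=
      Finset.card_eq_sum_card_fiberwise fun a _ => Finset.mem_coe.2 (Finset.mem_univ _)
    rw [h1]
    push_cast
    calc ∑ l ∈ (Finset.univ : Finset (f.primeFactors → Fin 6)),
          (((S'.filter (fun a => L a = l)).card : ℕ) : ℝ)
        ≤ ∑ _l ∈ (Finset.univ : Finset (f.primeFactors → Fin 6)), B :=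
          Finset.sum_le_sum fun l _ => hfib l
      _ = 6 ^ f.primeFactors.card * B := by
          rw [Finset.sum_const, nsmul_eq_mul, Finset.card_univ, Fintype.card_fun, Fintype.card_fin,
            Fintype.card_coe]
          push_cast
          rfl
  have hlast : (S.card : ℝ) = S'.card + 1 := by
    rw [hS', Finset.card_erase_of_mem ha₀S]
    have : 1 ≤ S.card := Finset.card_pos.2 ⟨a₀, ha₀S⟩
    rw [Nat.cast_sub this]
    push_cast
    ring
  rw [hlast]
  linarith

end Pool.Agent.T6L
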