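import Pool.Agent.helper46.T6L.SpecO
import Pool.Agent.helper63.T5.HGT

/-! # Row t6l:OGT. The tuples with given `θ` and `Z = z` (port of `Pool/Agent/helper63/T5/HGT.lean`) -/

set_option autoImplicit false

namespace Pool.Agent.T6L

open Finset NumberField Pool.Agent.helper3.FT Pool.Agent.helper47.RA Pool.Agent.T5
open Pool.Agent.helper26.T5 (nn LEMB LPR LAW LP LPA HLN HPR HSQ HID HCL HGA)
open Pool.Agent.helper28.LT (rad)
open Pool.Agent.helper26.T5 (HGT_cast_ne HGT_one HGT_pair HGT_rad)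

/-- `f ∣ z ^ 2 y` and `rad f ∣ y` give `sl f z ∣ y` -/
theorem OGT_sl {f z : ℕ} {y : ℤ} (hf : 1 ≤ f) (h1 : (rad f : ℤ) ∣ y) (h2 : (f : ℤ) ∣ (z : ℤ) ^ 2 * y) :
    (sl f z : ℤ) ∣ y := by
  rw [Int.natCast_dvd] at h1 h2 ⊢
  rw [Int.natAbs_mul, Int.natAbs_pow, Int.natAbs_natCast] at h2
  unfold sl
  refine Nat.lcm_dvd h1 ?_
  have hg : 0 < Nat.gcd f (z ^ 2) := Nat.gcd_pos_of_pos_left _ (by omega)
  have hco : Nat.Coprime (f / Nat.gcd f (z ^ 2)) (z ^ 2 / Nat.gcd f (z ^ 2)) :=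
    Nat.coprime_div_gcd_div_gcd hg
  refine hco.dvd_of_dvd_mul_left ?_
  obtain ⟨a, ha⟩ := Nat.gcd_dvd_left f (z ^ 2)
  obtain ⟨b, hb⟩ := Nat.gcd_dvd_right f (z ^ 2)
  have e1 : f / Nat.gcd f (z ^ 2) = a := Nat.div_eq_of_eq_mul_right hg ha
  have e2 : z ^ 2 / Nat.gcd f (z ^ 2) = b := Nat.div_eq_of_eq_mul_right hg hb
  rw [e1, e2]
  refine Nat.dvd_of_mul_dvd_mul_left hg ?_
  rw [← ha, ← mul_assoc, ← hb]
  exact h2

theorem OGT_slpos {f z : ℕ} (hf : 1 ≤ f) : 0 < sl f z := by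
  unfold sl
  refine Nat.lcm_pos ?_ ?_
  · unfold rad
    exact Finset.prod_pos fun p hp => (Nat.prime_of_mem_primeFactors hp).pos
  · exact Nat.div_pos (Nat.le_of_dvd (by omega) (Nat.gcd_dvd_left _ _))
      (Nat.gcd_pos_of_pos_left _ (by omega))

theorem OGT (hLEMB : LEMB) (hLPR : LPR) (hHLN : HLN) (hHSQ : HSQ) : OGT_stmt := by
  intro K _ _ Q f z θ X hD hf hp5 hX F hF₀
  have hF : ∀ t ∈ F, IsT t ∧ 0 < t.2.2.2 ∧ 0 < lam t ∧ (lam t : ℝ) ≤ X ∧
      ∃ α γ u v θ' : 𝓞 K, Els Q f t α γ u v θ θ' := fun t ht =>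
    ⟨(hF₀ t ht).1, (hF₀ t ht).2.1, (hF₀ t ht).2.2.2.1, (hF₀ t ht).2.2.2.2.1, (hF₀ t ht).2.2.2.2.2⟩
  classical
  obtain ⟨E, hE1, hE2, hE3, hE4, hE5⟩ := hLEMB K Q hD
  have hDs : 0 < √|(Q.D : ℝ)| := Real.sqrt_pos.2 (abs_pos.2 (by exact_mod_cast Q.D_ne_zero))
  have hsl : 0 < sl f z := OGT_slpos hf
  have hslR : (0 : ℝ) < sl f z := by exact_mod_cast hsl
  have hex : ∀ t ∈ F, ∃ α γ u v θ' : 𝓞 K, Els Q f t α γ u v θ θ' := fun t ht => (hF t ht).2.2.2.2
  choose! al ga uu vv th hEls using hex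
  have hZeq : ∀ s ∈ F, ∀ t ∈ F, s.2.2.2 = t.2.2.2 := by
    intro s hs t ht
    have h1 := (HGT_one (hEls s hs) (hF s hs).2.1 (hF s hs).2.2.1).1
    have h2 := (HGT_one (hEls t ht) (hF t ht).2.1 (hF t ht).2.2.1).1
    rw [h1] at h2
    have h3 : s.2.2.2 ^ 5 = t.2.2.2 ^ 5 := by exact_mod_cast h2
    exact (pow_left_inj₀ (hF s hs).2.1.le (hF t ht).2.1.le (by norm_num)).1 h3
  have hpair : ∀ s ∈ F, ∀ t ∈ F, ∃ x : 𝓞 K, Q.cj (al s) * al t = ((s.2.2.2 : ℤ) : 𝓞 K) ^ 2 * x ∧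
      x * Q.cj x = ((lam s * lam t : ℤ) : 𝓞 K) ∧ (f : ℤ) ∣ Q.Y (x ^ 5) ∧ (s ≠ t → Q.Y x ≠ 0) :=
    fun s hs t ht => HGT_pair hf (hEls s hs) (hEls t ht) (hF s hs).1 (hF t ht).1 (hF s hs).2.1
      (hF s hs).2.2.1 (hF t ht).2.2.1 (hZeq s hs t ht)
  choose! xx hxx using hpair
  -- the labels
  have hpp : ∀ p : {p // p ∈ f.primeFactors}, p.1.Prime := fun p => Nat.prime_of_mem_primeFactors p.2
  have hpf : ∀ p : {p // p ∈ f.primeFactors}, p.1 ∣ f := fun p => Nat.dvd_of_mem_primeFactors p.2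
  choose lab hlab using fun p : {p // p ∈ f.primeFactors} => hHLN K Q p.1 (hpp p) (hp5 p.1 (hpp p) (hpf p))
  have hi : ∀ p : {p // p ∈ f.primeFactors}, ∃ i : Tpl, (∃ t ∈ F, ¬ (p.1 : ℤ) ∣ lam t) →
      i ∈ F ∧ ¬ (p.1 : ℤ) ∣ lam i := by
    intro p
    by_cases h : ∃ t ∈ F, ¬ (p.1 : ℤ) ∣ lam t
    · obtain ⟨t, ht⟩ := h
      exact ⟨t, fun _ => ht⟩
    · exact ⟨((0, 0), (0, 0, 0)), fun h' => absurd h' h⟩
  choose ip hip using hi
  obtain ⟨ℓ, hℓ⟩ : ∃ ℓ : Tpl → {p // p ∈ f.primeFactors} → Option (Fin 6), ∀ t p, ℓ t p =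
      if (p.1 : ℤ) ∣ lam t then none else some (lab p (xx (ip p) t)) := ⟨_, fun _ _ => rfl⟩
  have hkey : ∀ s ∈ F, ∀ t ∈ F, ℓ s = ℓ t → (rad f : ℤ) ∣ Q.Y (xx s t) := by
    intro s hs t ht hst
    refine HGT_rad fun p hp hpf' => ?_
    obtain ⟨hx1, hx2, hx3, -⟩ := hxx s hs t ht
    have hfp : (p : ℤ) ∣ (f : ℤ) := by exact_mod_cast hpf'
    have hmem : p ∈ f.primeFactors := Nat.mem_primeFactors.2 ⟨hp, hpf', by omega⟩
    have h1 := congrFun hst ⟨p, hmem⟩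
    rw [hℓ, hℓ] at h1
    by_cases hps : (p : ℤ) ∣ lam s
    · rw [if_pos hps] at h1
      have hpt : (p : ℤ) ∣ lam t := by
        by_contra hpt
        rw [if_neg hpt] at h1
        exact absurd h1 (by simp)
      have h2 : (p : 𝓞 K) ∣ xx s t := by
        refine hHSQ K Q p (xx s t) (lam s * lam t) hp hx2 ?_ (hfp.trans hx3)
        rw [pow_two]
        exact mul_dvd_mul hps hpt
      refine Q.h96_dvd_Y (p : ℤ) (by exact_mod_cast hp.ne_zero) ?_
      rw [Int.cast_natCast]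
      exact h2
    · rw [if_neg hps] at h1
      have hpt : ¬ (p : ℤ) ∣ lam t := by
        intro hpt
        rw [if_pos hpt] at h1
        exact absurd h1 (by simp)
      rw [if_neg hpt] at h1
      have h2 := Option.some_injective _ h1
      obtain ⟨hiF, hiL⟩ := hip ⟨p, hmem⟩ ⟨s, hs, hps⟩
      generalize ip ⟨p, hmem⟩ = i at h2 hiF hiL
      obtain ⟨a1, -, a3, -⟩ := hxx i hiF s hs
      obtain ⟨b1, -, b3, -⟩ := hxx i hiF t ht
      have h3 := hlab ⟨p, hmem⟩ (xx i s) (xx i t) (hfp.trans a3) (hfp.trans b3) h2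
      have hZi : ((i.2.2.2 : ℤ) : 𝓞 K) ≠ 0 := HGT_cast_ne (hF i hiF).2.1.ne'
      have hid : Q.cj (xx i s) * xx i t = ((lam i : ℤ) : 𝓞 K) * xx s t := by
        have a1' : al i * Q.cj (al s) = ((i.2.2.2 : ℤ) : 𝓞 K) ^ 2 * Q.cj (xx i s) := by
          have h := congrArg Q.cj a1
          rw [map_mul, map_mul, map_pow, Q.cj_cj, Q.cj_int] at h
          exact h
        refine mul_left_cancel₀ (pow_ne_zero 4 hZi) ?_
        calc ((i.2.2.2 : ℤ) : 𝓞 K) ^ 4 * (Q.cj (xx i s) * xx i t)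
            = (((i.2.2.2 : ℤ) : 𝓞 K) ^ 2 * Q.cj (xx i s)) * (((i.2.2.2 : ℤ) : 𝓞 K) ^ 2 * xx i t) := by ring
          _ = (al i * Q.cj (al s)) * (Q.cj (al i) * al t) := by rw [← a1', ← b1]
          _ = (al i * Q.cj (al i)) * (Q.cj (al s) * al t) := by ring
          _ = _ := by
            rw [(hEls i hiF).nα, hx1, hZeq s hs i hiF]
            ring
      rw [hid, Q.Y_int_mul] at h3
      exact ((Nat.prime_iff_prime_int.1 hp).dvd_mul.1 h3).resolve_left hiL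
  have hkey2 : ∀ s ∈ F, ∀ t ∈ F, ℓ s = ℓ t → (sl f z : ℤ) ∣ Q.Y (xx s t) := by
    intro s hs t ht hst
    refine OGT_sl hf (hkey s hs t ht hst) ?_
    obtain ⟨hx1, -, -, -⟩ := hxx s hs t ht
    have h1 : (f : ℤ) ∣ Q.Y (Q.cj (al s) * al t) := by
      refine Q.h96_Y_mul _ (Q.h96_Y_cj _ ?_) ?_
      · rw [(hEls s hs).yα]
        exact Dvd.intro _ rfl
      · rw [(hEls t ht).yα]
        exact Dvd.intro _ rfl
    rw [hx1, ← Int.cast_pow, Q.Y_int_mul, (hF₀ s hs).2.2.1] at h1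
    exact h1
  -- one system of labels
  have hB0 : 0 ≤ 2 * Real.pi * X / (sl f z * √|(Q.D : ℝ)|) := by
    have := Real.pi_pos
    positivity
  have hfib : ∀ b : {p // p ∈ f.primeFactors} → Option (Fin 6), ((F.filter fun t => ℓ t = b).card : ℝ) ≤
      1 + 2 * Real.pi * X / (sl f z * √|(Q.D : ℝ)|) := by
    intro b
    rcases (F.filter fun t => ℓ t = b).eq_empty_or_nonempty with h0 | ⟨t₀, ht₀⟩
    · rw [h0, Finset.card_empty, Nat.cast_zero]
      linarith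
    · have ht₀F := (Finset.mem_filter.1 ht₀).1
      have hZ0 : 0 < t₀.2.2.2 := (hF t₀ ht₀F).2.1
      obtain ⟨Z, hZ⟩ : ∃ Z : ℝ, Z = (t₀.2.2.2 : ℝ) := ⟨_, rfl⟩
      have hZp : 0 < Z := by
        rw [hZ]
        exact_mod_cast hZ0
      have hV : 0 < Z ^ 2 * sl f z * √|(Q.D : ℝ)| / 2 := by positivity
      have hsep : ∀ s ∈ F.filter (fun t => ℓ t = b), ∀ t ∈ F.filter (fun t => ℓ t = b), s ≠ t →
          Z ^ 2 * sl f z * √|(Q.D : ℝ)| / 2 ≤ |((starRingEnd ℂ) (E (al s)) * E (al t)).im| := by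
        intro s hs t ht hne
        obtain ⟨hsF, hsb⟩ := Finset.mem_filter.1 hs
        obtain ⟨htF, htb⟩ := Finset.mem_filter.1 ht
        obtain ⟨hx1, -, -, hx4⟩ := hxx s hsF t htF
        have h1 := hkey2 s hsF t htF (hsb.trans htb.symm)
        have h2 : (sl f z : ℤ) ≤ |Q.Y (xx s t)| :=
          Int.le_of_dvd (abs_pos.2 (hx4 hne)) ((dvd_abs _ _).2 h1)
        have h3 : (sl f z : ℝ) ≤ |(Q.Y (xx s t) : ℝ)| := by exact_mod_cast h2
        rw [← hE3, ← map_mul, hE2, hx1, hZeq s hsF t₀ ht₀F]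
        have h4 : Q.Y (((t₀.2.2.2 : ℤ) : 𝓞 K) ^ 2 * xx s t) = t₀.2.2.2 ^ 2 * Q.Y (xx s t) := by
          rw [← Int.cast_pow, Q.Y_int_mul]
        rw [h4]
        push_cast
        rw [← hZ, abs_mul, abs_mul, abs_of_pos (pow_pos hZp 2), abs_of_pos (half_pos hDs)]
        calc Z ^ 2 * sl f z * √|(Q.D : ℝ)| / 2 = Z ^ 2 * (sl f z : ℝ) * (√|(Q.D : ℝ)| / 2) := by ring
          _ ≤ Z ^ 2 * |(Q.Y (xx s t) : ℝ)| * (√|(Q.D : ℝ)| / 2) := by
            refine mul_le_mul_of_nonneg_right ?_ (half_pos hDs).le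
            exact mul_le_mul_of_nonneg_left h3 (pow_pos hZp 2).le
      have hinj : Set.InjOn (fun t => E (al t)) (F.filter (fun t => ℓ t = b) : Set Tpl) := by
        intro s hs t ht he
        by_contra hne
        have h1 := hsep s hs t ht hne
        change E (al s) = E (al t) at he
        rw [he] at h1
        have h2 : ((starRingEnd ℂ) (E (al t)) * E (al t)).im = 0 := by
          rw [mul_comm, Complex.mul_conj]
          exact Complex.ofReal_im _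
        rw [h2, abs_zero] at h1
        linarith
      have hR0 : 0 ≤ Z * √X := by positivity
      have h1 := hLPR ((F.filter (fun t => ℓ t = b)).image fun t => E (al t)) (Z * √X)
        (Z ^ 2 * sl f z * √|(Q.D : ℝ)| / 2) hV ?_ ?_
      · rw [Finset.card_image_of_injOn hinj, mul_pow, Real.sq_sqrt hX.le] at h1
        refine h1.trans (le_of_eq ?_)
        field_simp
        ring
      · intro z hz
        obtain ⟨t, ht, rfl⟩ := Finset.mem_image.1 hz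
        obtain ⟨htF, -⟩ := Finset.mem_filter.1 ht
        constructor
        · rw [hE1]
          have h2 : (nn (al t) : ℤ) = t.2.2.2 ^ 2 * lam t := by
            refine QF.int_inj (K := K) ?_
            push_cast
            rw [← hE5, (hEls t htF).nα]
          have h3 : (nn (al t) : ℝ) = (t.2.2.2 : ℝ) ^ 2 * (lam t : ℝ) := by exact_mod_cast h2
          rw [hE4, hZeq t htF t₀ ht₀F, ← hZ] at h3
          have hv0 : 0 ≤ Q.v₁ (al t) := by
            rw [← hE1]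
            exact norm_nonneg _
          refine (pow_le_pow_iff_left₀ hv0 hR0 two_ne_zero).1 ?_
          rw [h3, mul_pow, Real.sq_sqrt hX.le]
          exact mul_le_mul_of_nonneg_left (hF t htF).2.2.2.1 (pow_pos hZp 2).le
        · rw [hE2, (hEls t htF).yα]
          have h2 : 0 < (f : ℤ) * (t.1.1 : ℤ) := by
            have h3 := (hF t htF).1.n1
            have h4 : 0 < f * t.1.1 := Nat.mul_pos hf h3
            exact_mod_cast h4
          have h3 : (0 : ℝ) < (((f : ℤ) * (t.1.1 : ℤ) : ℤ) : ℝ) := by exact_mod_cast h2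
          exact mul_pos h3 (half_pos hDs)
      · intro z hz z' hz' hne
        obtain ⟨s, hs, rfl⟩ := Finset.mem_image.1 hz
        obtain ⟨t, ht, rfl⟩ := Finset.mem_image.1 hz'
        exact hsep s hs t ht fun h => hne (by rw [h])
  have hcard : F.card = ∑ b : {p // p ∈ f.primeFactors} → Option (Fin 6), (F.filter fun t => ℓ t = b).card :=
    Finset.card_eq_sum_card_fiberwise fun t _ => Finset.mem_coe.2 (Finset.mem_univ _)
  rw [hcard]
  push_cast
  refine (Finset.sum_le_sum fun b _ => hfib b).trans (le_of_eq ?_)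
  rw [Finset.sum_const, Finset.card_univ, Fintype.card_fun, Fintype.card_option, Fintype.card_fin,
    Fintype.card_coe, nsmul_eq_mul]
  push_cast
  norm_num

end Pool.Agent.T6L
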